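import Mathlib
import Pool.Agent.Run7.h881.CD.Cor

/-!
# PCP reductions to 2-to-1 games with perfect completeness need smoothness

The standard gap reductions to 2-to-1 games start with a projection game (Label Cover: left vertices
`u` with labels in `S`, right vertices `v` with labels in `G`, projections `proj u v : S → G`), for
instance the clause-variable game of a 3-CNF formula; they repeat it in parallel, possibly in the
smooth form (in some of the rounds the second player gets the left vertex itself instead of a right
vertex), replace the tuples by tables (the long code, the Grassmann code or any other code), and test
an entry of the table of a tuple of left vertices against an entry of the table of the second tuple.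
The definitions are in `Pool/Agent/Run7/h881/CK/Defs.lean` and `Pool/Agent/Run7/h881/CD/Defs.lean`:

* `Source`: the projection game, with a probability distribution `mu u` of the labels of each left
  vertex `u` such that its projection to a neighbour `v` is a distribution `lam v` which depends on `v`
  only. Nothing is said about the value of this game: it may be satisfiable or far from it.
* `Source.Indep`: the projections of a random label of `u` to two different neighbours are
  independent. Part (3) below: this is so for the clause-variable game of every 3-CNF formula, with
  the distribution on the satisfying assignments of a clause with an odd number of true literals.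
* `Game`: a bipartite game with vertices `P` and `T`, here with labels in `Fin q` on both sides, and
  constraints `pi e (label of src e) = label of tgt e`, composed with the product of the games `Q i`,
  `i : I`. Each vertex `p` in `P` belongs to the table of a tuple of left vertices, each vertex `t` in
  `T` to the table of a tuple of left and right vertices, and they have honest labels, which are
  functions of the tuple of the labels. On every edge and in each round `i` the entry of the second
  tuple is the left vertex of the first one or a right vertex adjacent to it.
* `Game.Perfect`: perfect completeness: the honest labels for all tuples of labels of positive
  probability and their projections satisfy all constraints.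
* `Game.Mixing γ p`: in each round, for a random edge at `p`, the entry of the second tuple is with
  probability at least `2 γ` a right vertex, and, for every `v`, with probability at least `γ` a right
  vertex different from `v`. If the second tuple is chosen independently of the entry of the table, all
  degrees are at least two and a right vertex is chosen with probability `β` in each round, and then
  uniformly from the neighbours, then this holds with `γ = β / 2`; `β = 1` is the case without
  smoothness.

The theorem. (1) Let all constraints be 2-to-1 and let the game have perfect completeness. Then some
labelling satisfies at least `2 ^ (- (1 - γ) / γ)` times the number of edges at `γ`-mixing vertices,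
whatever the value of the projection games, the number of rounds, the tables and `q` are. (2) If there
is no smoothness and in each round no right vertex is used by more than half of the edges at a
vertex, then the value is at least `1 / 2`. (3) The clause-variable games of 3-CNF formulas are sources
of this kind.

So a reduction with perfect completeness and soundness `δ` must use, for every fixed `γ`, vertices
which are not `γ`-mixing for almost all of its tests if `δ` is small: it must be smooth, with `β` at most
about `2 / log_2 (1 / δ)`, or choose the second tuple in dependence on the entry of the table. The
number of rounds does not help, and without smoothness no soundness below `1 / 2` is possible.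

The proof compares the entropy of the honest label of `p` with the information that the entries of
the second tuples of the edges at `p` contain about it; see
`Pool/Agent/Run7/h881/CD/Main.lean`. The result for `d`-to-1 games is in
`Pool/Agent/Results/MP_62e2f2_lc/CompositionSmoothness.lean`.
-/

set_option autoImplicit false

namespace Pool.Agent.Results.MP_ec946a_lc.CompositionSmoothness

open Finset Run7.h881.CK Run7.h881.CD

open scoped Classical in
/-- Let `R` be a game composed with the parallel repetition of the projection games `Q i` with
pairwise independent projections, with perfect completeness and 2-to-1 constraints, with the labels
`Fin q` on both sides. (1) For `0 < γ ≤ 1` some labelling satisfies at least `2 ^ (- (1 - γ) / γ)` times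
the number of edges at `γ`-mixing vertices. (2) If all tuples `ownT t` consist of right vertices and in
each round no right vertex is used by more than half of the edges at a vertex of `P`, then some
labelling satisfies at least half of the edges. (3) The clause-variable game of each 3-CNF formula
with clauses on three different variables is such a projection game, with labels that satisfy the
clauses. -/
theorem result :
    (∀ (q : ℕ) (I U V S G P T E : Type) [Fintype I] [Fintype S] [Fintype G] [DecidableEq G]
      [Fintype E] (Q : I → Source U V S G) (R : Game Q P T E (Fin q) (Fin q)), 1 ≤ q →
      (∀ i, (Q i).Indep) → R.Perfect →
      (∀ e b, (univ.filter fun a => R.pi e a = b).card ≤ 2) →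
      (∀ γ : ℝ, 0 < γ → γ ≤ 1 → ∃ (F : P → Fin q) (F' : T → Fin q),
        (2 : ℝ) ^ (-((1 - γ) / γ)) * ((univ.filter fun e => R.Mixing γ (R.src e)).card : ℝ) ≤
          ((univ.filter fun e => R.pi e (F (R.src e)) = F' (R.tgt e)).card : ℝ)) ∧
      ((∀ t i, ∃ v, R.ownT t i = Sum.inr v) →
        (∀ p i v, 2 * (univ.filter fun e => R.src e = p ∧ R.ownT (R.tgt e) i = Sum.inr v).card ≤
          (univ.filter fun e => R.src e = p).card) →
        ∃ (F : P → Fin q) (F' : T → Fin q), Fintype.card E ≤
          2 * (univ.filter fun e => R.pi e (F (R.src e)) = F' (R.tgt e)).card)) ∧
    (∀ (n m : ℕ) (var : Fin m → Fin 3 → Fin n) (neg : Fin m → Fin 3 → Bool),
      (∀ c, Function.Injective (var c)) →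
      ∃ q : Source (Fin m) (Fin n) (Fin 3 → Bool) Bool, q.Indep ∧
        (∀ c v, q.nbr c v ↔ ∃ j, var c j = v) ∧
        (∀ c j s, q.proj c (var c j) s = s j) ∧
        (∀ c s, 0 < q.mu c s → ∃ j, s j ≠ neg c j)) := by
  refine ⟨?_, fun n m var neg hinj => threeSat var neg hinj⟩
  intro q I U V S G P T E _ _ _ _ _ Q R hq hQ hperf hfib
  have : Nonempty (Fin q) := ⟨⟨0, hq⟩⟩
  refine ⟨fun γ hγ hγ1 => ?_, fun hT hhalf => ?_⟩
  · have h := R.main hQ hperf (d := 2) (by norm_num) (fun e b => by convert hfib e b) hγ hγ1
    simp only [Nat.cast_ofNat] at h
    convert h
  · have h := R.plain (d := 2) hQ hperf (by norm_num) (fun e b => by convert hfib e b) hT hhalf
    convert h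

end Pool.Agent.Results.MP_ec946a_lc.CompositionSmoothness
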