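import Pool.Agent.Run7.h715.CL.Games

/-!
# 2-to-1 games and counting logic

`Proj t A B`: the maps from `A` to `B` with fibres of at most `t` elements. A 2-to-1 game with label
sets `A`, `B` is a structure `Str 2 (Proj 2 A B) X`: for each map `π` and each pair `e` of vertices it
gives the multiplicity of the constraint `π (label of e 0) = label of e 1`. `gmSat I x y` is the number
of the constraints satisfied if the vertices get the labels `x : X → A` as first end and
`y : X → B` as second end of a constraint. (In a bipartite game each vertex uses only one of the two.)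
`DuplicatorWins K I J`: Duplicator wins Hella's bijective `K`-pebble game, that is, `I` and `J` satisfy
the same sentences of counting logic with `K` variables. `cnfSat`: the number of satisfied clauses of
a 3-CNF formula (the symbol of a clause is the assignment which violates it). `IsReduction`: see
`Pool/Agent/Run7/h715/CL/Games.lean`.
-/

set_option autoImplicit false

namespace Pool.Agent.Results.MP_ec946a_lc.CountingLogic

open Run7.h625.CW Run7.h715.CL

/-- Let `0 < c ≤ 1` (perfect completeness: `c = 1`), `log (2048 / c ^ 4) ≤ l`,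
`x = log (2048 / c ^ 4) / l`.
(1) If Duplicator wins the bijective `K`-pebble game on two 2-to-1 games with `n` vertices over the
same label sets, where `K ≥ n ^ (14 x log (2 / x))` and `l ≤ log n`, or `K ≥ 2 n`, and the first has
value at least `c`, then the second has value at least `c ^ 5 e ^ (-l) / 2 ^ 21`.
(2) If `14 d x log (2 / x) < 1`, then no reduction of dimension `d` that respects equivalence in
counting logic maps satisfiable 3-CNF formulas to 2-to-1 games of value at least `c` and formulas of
value at most `7 / 8 + ρ` to 2-to-1 games of value less than `c ^ 5 e ^ (-l) / 2 ^ 21`. -/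
theorem result :
    (∀ (X Y A B : Type) [Fintype X] [Fintype Y] [Fintype A] [DecidableEq A] [Fintype B]
      [DecidableEq B] (I : Str 2 (Proj 2 A B) X) (J : Str 2 (Proj 2 A B) Y) (c l x : ℝ) (K : ℕ),
      0 < c → c ≤ 1 → Real.log (2048 / c ^ 4) ≤ l → x = Real.log (2048 / c ^ 4) / l → 2 ≤ K →
      ((l ≤ Real.log (Fintype.card X) ∧
        (Fintype.card X : ℝ) ^ (14 * (x * Real.log (2 / x))) ≤ K) ∨ 2 * Fintype.card X ≤ K) →
      DuplicatorWins K I J →
      (∃ (M : X → A) (N : X → B), c * (total I : ℝ) ≤ gmSat I M N) →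
      ∃ (M : Y → A) (N : Y → B), c ^ 5 * Real.exp (-l) / 2 ^ 21 * (total J : ℝ) ≤ gmSat J M N) ∧
    (∀ c l x ρ : ℝ, 0 < c → c ≤ 1 → Real.log (2048 / c ^ 4) ≤ l →
      x = Real.log (2048 / c ^ 4) / l → 0 < ρ →
      ∀ d l' B : ℕ, 1 ≤ d → (d : ℝ) * (14 * (x * Real.log (2 / x))) < 1 →
      ∀ (A A' : ℕ → Type) [∀ N, Fintype (A N)] [∀ N, DecidableEq (A N)] [∀ N, Fintype (A' N)]
        [∀ N, DecidableEq (A' N)]
        (R : ∀ N : ℕ, Str 3 (Fin 3 → ZMod 2) (Fin N) → Inst 2 (Proj 2 (A N) (A' N))),
        ¬ IsReduction 2 c (c ^ 5 * Real.exp (-l) / 2 ^ 21) ρ d l' B A A' R) := by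
  have e1 : (1024 : ℝ) * ((2 : ℕ) : ℝ) = 2048 := by norm_num
  refine ⟨?_, ?_⟩
  · intro X Y A B _ _ _ _ _ _ I J c l x K hc hc1 hl hx hK2 hK h hv
    exact value_transfer I J c l x (by norm_num) hc hc1 (by rw [e1]; exact hl)
      (by rw [e1]; exact hx) K hK2 hK h hv
  · intro c l x ρ hc hc1 hl hx hρ d l' B hd hdx A A' _ _ _ _ R
    exact barrier 2 c l x ρ (by norm_num) hc hc1 (by rw [e1]; exact hl) (by rw [e1]; exact hx) hρ
      d l' B hd hdx A A' R

end Pool.Agent.Results.MP_ec946a_lc.CountingLogic
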