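import Pool.Agent.TH522.DG.Local
import Pool.Agent.TH843.LR.Form
import Pool.Agent.Run7.h250.LR.Vec

/-!
# Local reductions of linear locality from gap 3-SAT to 2-to-1 games with perfect completeness

The definitions used in the statement are `Represents` in `Pool/Agent/TH522/DG/Local.lean`, `Reads`,
`SatOn` in `Pool/Agent/TH700/UG/Defs.lean`, and `Clause`, `Satisfies`, `falsified` in
`Pool/Agent/W888/GX/Mix.lean`.

Proof: for random formulas there is a pseudo-expectation of linear degree which satisfies all
clauses (starting files). Composed with the honest labelings it gives a solution of value one of the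
basic (pairwise) semidefinite relaxation of the game, however large the game is. By the theorem on
the integrality gap of this relaxation (`Run7.h881.GP.perfect_gap`, helper881) some labeling
satisfies a fraction `t ^ (-m) |U| ^ (-1 / (2 m + 1))` of the edges, for every `m`.
-/

namespace Pool.Agent.Results.MP_ec946a_lc.LinearLocality

open Finset Pool.Agent.W888.GX Pool.Agent.TH522.DG

/-- For every `η > 0` there are `M` and `c > 0` such that for all large `n` there is a formula `F`
with at least `n` and at most `M n` clauses, with three literals each, over `n` variables, every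
assignment of which falsifies at least a fraction `1 / 8 - η` of the clauses, and with the following
property. Let a game with edges `(u e, v e)` (at least one), finite sets of labels `A` for `U` and
`B` for `V`, and projections `π e : A → B` all of whose fibres have at most `t` elements, `t ≥ 2`,
represent `F` with locality `D ≤ c n` and perfect completeness. Then
(1) for every `m` some labeling satisfies at least a fraction `t ^ (-m) |U| ^ (-1 / (2 m + 1))` of
the edges;
(2) if every labeling satisfies less than a fraction `δ` of the edges, `0 < δ ≤ 1`, then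
`|U| > exp (log (1 / δ) ^ 2 / (2 log t))`. -/
theorem result : ∀ η : ℝ, 0 < η →
    ∃ M : ℕ, 1 ≤ M ∧ ∃ c : ℝ, 0 < c ∧ ∃ n₀ : ℕ, ∀ n : ℕ, n₀ ≤ n →
      ∃ (I : Type) (_ : Fintype I) (F : I → Clause 3 n),
        n ≤ Fintype.card I ∧ Fintype.card I ≤ M * n ∧
        (∀ z, (1 / 8 - η) * (Fintype.card I : ℝ) ≤ (falsified F z : ℝ)) ∧
        ∀ (t D : ℕ) (U V E A B : Type) [Fintype U] [Fintype V] [Fintype E] [Nonempty E]
          [Fintype A] [Fintype B] [DecidableEq B] (u : E → U) (v : E → V) (π : E → A → B),
          2 ≤ t → (D : ℝ) ≤ c * n →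
          (∀ e b, (univ.filter fun a => π e a = b).card ≤ t) →
          Represents F D u v π →
          (∀ m : ℕ, ∃ (M : U → A) (N : V → B),
            1 / (t : ℝ) ^ m * (1 / (Fintype.card U : ℝ) ^ (1 / (2 * m + 1 : ℝ))) *
              (Fintype.card E : ℝ) ≤ ((univ.filter fun e => π e (M (u e)) = N (v e)).card : ℝ)) ∧
          (∀ δ : ℝ, 0 < δ → δ ≤ 1 →
            (∀ (M : U → A) (N : V → B), ((univ.filter fun e => π e (M (u e)) = N (v e)).card : ℝ) <
              δ * Fintype.card E) →
            Real.exp (Real.log (1 / δ) ^ 2 / (2 * Real.log t)) < Fintype.card U) := by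
  intro η hη
  obtain ⟨M, hM, c0, hc0, n0, hn0⟩ := Pool.Agent.TH843.LR.exists_formula_card η hη
  refine ⟨M, hM, c0 / 3, by positivity, n0, fun n hn => ?_⟩
  obtain ⟨I, hI, F, D0, L, hcard0, hcard, hfar, hD0, hL, hF⟩ := hn0 n hn
  refine ⟨I, hI, F, hcard0, hcard, hfar, ?_⟩
  intro t D U V E A B _ _ _ _ _ _ _ u v π ht hD hfib hR
  have hDD : 3 * D ≤ D0 := by
    have : ((3 * D : ℕ) : ℝ) ≤ D0 := by
      push_cast
      linarith
    exact_mod_cast this
  have hgood := fun m => Pool.Agent.Run7.h250.LR.good_labeling hL F hF u v π hR hDD t (by omega)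
    hfib m
  refine ⟨hgood, fun δ hδ hδ1 hno => ?_⟩
  have htr : (2 : ℝ) ≤ t := by exact_mod_cast ht
  have hlt : 0 < Real.log t := Real.log_pos (by linarith)
  have hl : 0 ≤ Real.log (1 / δ) := Real.log_nonneg (by rw [le_div_iff₀ hδ]; linarith)
  obtain ⟨m, hm⟩ := Pool.Agent.Run7.h250.LR.choose_m (Real.log (1 / δ)) (Real.log t) hl hlt
  obtain ⟨M', N', h⟩ := hgood m
  have h1 := hno M' N'
  obtain ⟨e0⟩ := ‹Nonempty E›
  have hE : (0 : ℝ) < Fintype.card E := by
    have : 0 < Fintype.card E := Fintype.card_pos_iff.2 ⟨e0⟩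
    exact_mod_cast this
  have hU : (0 : ℝ) < Fintype.card U := by
    have : 0 < Fintype.card U := Fintype.card_pos_iff.2 ⟨u e0⟩
    exact_mod_cast this
  have h2 : 1 / (t : ℝ) ^ m * (1 / (Fintype.card U : ℝ) ^ (1 / (2 * m + 1 : ℝ))) < δ :=
    lt_of_mul_lt_mul_right (lt_of_le_of_lt h h1) hE.le
  have ht0 : (0 : ℝ) < (t : ℝ) ^ m := by positivity
  have hUp : 0 < (Fintype.card U : ℝ) ^ (1 / (2 * m + 1 : ℝ)) := Real.rpow_pos_of_pos hU _
  have h3 : Real.log (1 / (t : ℝ) ^ m * (1 / (Fintype.card U : ℝ) ^ (1 / (2 * m + 1 : ℝ)))) <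
      Real.log δ := Real.log_lt_log (by positivity) h2
  rw [Real.log_mul (by positivity) (by positivity), one_div, one_div (_ ^ (_ : ℝ)), Real.log_inv,
    Real.log_inv, Real.log_pow, Real.log_rpow hU] at h3
  have h4 : Real.log (1 / δ) = -Real.log δ := by rw [one_div, Real.log_inv]
  have hm0 : (0 : ℝ) < 2 * m + 1 := by positivity
  have h5 : (2 * (m : ℝ) + 1) * (Real.log (1 / δ) - m * Real.log t) <
      Real.log (Fintype.card U) := by
    have h6 : Real.log (1 / δ) - m * Real.log t < 1 / (2 * m + 1 : ℝ) *
        Real.log (Fintype.card U) := by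
      rw [h4]; linarith
    have h7 := mul_lt_mul_of_pos_left h6 hm0
    have h8 : (2 * (m : ℝ) + 1) * (1 / (2 * m + 1 : ℝ) * Real.log (Fintype.card U)) =
        Real.log (Fintype.card U) := by field_simp
    rw [h8] at h7
    exact h7
  rw [← Real.lt_log_iff_exp_lt hU]
  exact lt_of_le_of_lt hm h5

end Pool.Agent.Results.MP_ec946a_lc.LinearLocality
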