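import Pool.Agent.Run7.h715.DS.Main

/-!
2-to-1 games and the Sherali-Adams linear programs alone (no positive semidefiniteness): level
`n ^ (14 x log (2 / x))`, `x = log (2048 / c ^ 4) / l`, of value `c` gives a labeling of value
`c ^ 5 e ^ (-l) / 2 ^ 21`. In particular, for perfect completeness (`c = 1`), level
`n ^ (O (log l / l))` separates value one from value `e ^ (-l) / 2 ^ 21`, for all alphabets.
-/

namespace Pool.Agent.Results.MP_ec946a_lc.SheraliAdamsAlone

open Finset

/-- `f` depends only on the labels of the vertices in `S` (on the side of the domains of the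
projections) and in `T` (on the other side). -/
def DependsOn {U V A B : Type} (S : Finset U) (T : Finset V) (f : (U → A) × (V → B) → ℝ) : Prop :=
  ∀ z z' : (U → A) × (V → B), (∀ u ∈ S, z.1 u = z'.1 u) → (∀ v ∈ T, z.2 v = z'.2 v) → f z = f z'

/-- `L` is a solution of level `k` of the Sherali-Adams linear program: a normalised linear
functional on the functions of a labeling which is nonnegative on all nonnegative functions of at
most `k` labels. Only the values of `L` on functions of at most `k` labels matter: they are the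
local distributions of the program. Nothing is required to be positive semidefinite. -/
structure IsSheraliAdams {U V A B : Type} (k : ℕ) (L : ((U → A) × (V → B) → ℝ) →ₗ[ℝ] ℝ) :
    Prop where
  one : L (fun _ => 1) = 1
  nonneg : ∀ (S : Finset U) (T : Finset V), S.card + T.card ≤ k →
    ∀ f : (U → A) × (V → B) → ℝ, DependsOn S T f → (∀ z, 0 ≤ f z) → 0 ≤ L f

/-- For every 2-to-1 game with edges `(u e, v e)`, projections `π e : A → B` with fibres of at most
two elements, `A` and `B` any finite sets, and `n` vertices on the side of `A`: let `0 < c ≤ 1`,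
`log (2048 / c ^ 4) ≤ l ≤ log n` and `x = log (2048 / c ^ 4) / l`. If level
`K ≥ n ^ (14 x log (2 / x))` of the Sherali-Adams linear program has a solution of value at least
`c`, then some labeling satisfies at least a fraction `c ^ 5 e ^ (-l) / 2 ^ 21` of the edges. -/
theorem result (U V E A B : Type) [Fintype U] [Fintype V] [Fintype E] [Fintype A] [Fintype B]
    [DecidableEq B] (u : E → U) (v : E → V) (π : E → A → B)
    (hπ : ∀ e b, (univ.filter fun a => π e a = b).card ≤ 2) (c l x : ℝ) (hc : 0 < c) (hc1 : c ≤ 1)
    (hl : Real.log (2048 / c ^ 4) ≤ l) (hln : l ≤ Real.log (Fintype.card U))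
    (hx : x = Real.log (2048 / c ^ 4) / l) (K : ℕ)
    (hK : (Fintype.card U : ℝ) ^ (14 * (x * Real.log (2 / x))) ≤ K)
    (L : ((U → A) × (V → B) → ℝ) →ₗ[ℝ] ℝ) (hL : IsSheraliAdams K L)
    (hval : c * (Fintype.card E : ℝ) ≤
      ∑ e, L (fun z => if π e (z.1 (u e)) = z.2 (v e) then 1 else 0)) :
    ∃ (M : U → A) (N : V → B), c ^ 5 * Real.exp (-l) / 2 ^ 21 * (Fintype.card E : ℝ) ≤
      ((univ.filter fun e => π e (M (u e)) = N (v e)).card : ℝ) := by
  classical
  have e1 : (1024 : ℝ) * ((2 : ℕ) : ℝ) = 2048 := by norm_num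
  have hc4 : c ^ 4 ≤ 1 := pow_le_one₀ hc.le hc1
  have h1 : (1 : ℝ) < 2048 / c ^ 4 := by
    rw [lt_div_iff₀ (by positivity)]
    linarith
  have hl0 : 0 < l := lt_of_lt_of_le (Real.log_pos h1) hl
  exact Run7.h715.DS.corez v u π 2 hπ c l x hc hc1 (by rw [e1]; exact hx) hl0
    (by rw [e1]; exact hl) hln K hK L ⟨hL.one, hL.nonneg⟩ hval

end Pool.Agent.Results.MP_ec946a_lc.SheraliAdamsAlone
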